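import Mathlib

set_option autoImplicit false

/-!
# Counting lemmas for the random bipartite graph with many levels

Counting of the collisions of random functions on small sets (first moment with exponential
weights).  These lemmas are taken over from an earlier result of this project on the same problem.
-/

namespace Pool.Agent.KS6_65.QR

open Finset

lemma card_image_eq_le {n N : ℕ} (A : Finset (Fin n)) (S : Finset (Fin N)) :
    ((univ : Finset (Fin n → Fin N)).filter (fun g => A.image g = S)).card ≤ S.card ^ A.card * N ^ (n - A.card) := by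
  classical
  have h1 : (univ : Finset (Fin n → Fin N)).filter (fun g => A.image g = S) ⊆
      Fintype.piFinset (fun x => if x ∈ A then S else univ) := by
    intro g hg
    rw [mem_filter] at hg
    rw [Fintype.mem_piFinset]
    intro x
    by_cases hx : x ∈ A
    · rw [if_pos hx, ← hg.2]; exact mem_image_of_mem g hx
    · rw [if_neg hx]; exact mem_univ _
  refine (card_le_card h1).trans ?_
  rw [Fintype.card_piFinset]
  have h2 : ∀ x : Fin n, (if x ∈ A then S else univ).card = if x ∈ A then S.card else N := by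
    intro x; split_ifs <;> simp
  rw [prod_congr rfl (fun x _ => h2 x), prod_ite]
  simp only [prod_const]
  have e1 : (univ.filter (fun x => x ∈ A)) = A := by ext x; simp
  have e2 : (univ.filter (fun x => x ∉ A)).card = n - A.card := by
    have : (univ.filter (fun x => x ∉ A)) = Aᶜ := by ext x; simp
    rw [this, card_compl, Fintype.card_fin]
  rw [e1, e2]

lemma level_term (n N a b : ℕ) (ha : 1 ≤ a) (han : a ≤ n) (hba : b ≤ a) (hN : 0 < N) (z : ℝ) (hz : 0 ≤ z)
    (hza : z * a ≤ N) :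
    (N.choose b : ℝ) * (z ^ (a - b) * ((b:ℝ) ^ a * (N:ℝ) ^ (n - a))) ≤ (N:ℝ)^n * 3 ^ b := by
  have ha' : (0:ℝ) < a := by exact_mod_cast ha
  have hN' : (0:ℝ) < N := by exact_mod_cast hN
  have h1 : (N.choose b : ℝ) ≤ (N:ℝ)^b / (b.factorial) := Nat.choose_le_pow_div b N
  have h2 : (z * a) ^ (a - b) ≤ (N:ℝ) ^ (a - b) := pow_le_pow_left₀ (by positivity) hza _
  have h3 : (b:ℝ) ^ a ≤ (b:ℝ)^b * (a:ℝ)^(a-b) := by
    have : (b:ℝ)^a = (b:ℝ)^b * (b:ℝ)^(a-b) := by rw [← pow_add]; congr 1; omega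
    rw [this]
    have : (b:ℝ) ≤ a := by exact_mod_cast hba
    gcongr
  have h4 : (b:ℝ)^b / (b.factorial) ≤ 3 ^ b := by
    have := Real.pow_div_factorial_le_exp (b:ℝ) (by positivity) b
    refine this.trans ?_
    have e : Real.exp b = (Real.exp 1)^b := by rw [← Real.exp_nat_mul]; simp
    rw [e]
    have := Real.exp_one_lt_d9
    apply pow_le_pow_left₀ (by positivity)
    linarith
  calc (N.choose b : ℝ) * (z ^ (a - b) * ((b:ℝ) ^ a * (N:ℝ) ^ (n - a)))
      ≤ ((N:ℝ)^b / (b.factorial)) * (z ^ (a - b) * (((b:ℝ)^b * (a:ℝ)^(a-b)) * (N:ℝ) ^ (n - a))) := by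
        gcongr
    _ = ((N:ℝ)^b * (N:ℝ)^(n-a)) * ((b:ℝ)^b / (b.factorial)) * (z * a)^(a-b) := by
        rw [mul_pow]; ring
    _ ≤ ((N:ℝ)^b * (N:ℝ)^(n-a)) * (3^b) * (N:ℝ)^(a-b) := by
        gcongr
    _ = ((N:ℝ)^b * (N:ℝ)^(n-a) * (N:ℝ)^(a-b)) * 3^b := by ring
    _ = (N:ℝ)^n * 3^b := by
        rw [← pow_add, ← pow_add]; congr 2; omega

lemma level_sum (n N a : ℕ) (A : Finset (Fin n)) (hA : A.card = a) (ha : 1 ≤ a) (hN : 0 < N) (z : ℝ) (hz : 0 ≤ z)
    (hza : z * a ≤ N) :
    ∑ g : Fin n → Fin N, z ^ (a - (A.image g).card) ≤ 6 ^ a * (N:ℝ)^n := by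
  classical
  have han : a ≤ n := by rw [← hA]; simpa using card_le_univ A
  rw [← sum_fiberwise_of_maps_to (s := (univ : Finset (Fin n → Fin N)))
    (t := (univ : Finset (Fin N)).powerset.filter (fun S => S.card ≤ a)) (g := fun g => A.image g)]
  · calc ∑ S ∈ (univ : Finset (Fin N)).powerset.filter (fun S => S.card ≤ a),
          ∑ g ∈ (univ : Finset (Fin n → Fin N)).filter (fun g => A.image g = S), z ^ (a - (A.image g).card)
        ≤ ∑ S ∈ (univ : Finset (Fin N)).powerset.filter (fun S => S.card ≤ a),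
          z ^ (a - S.card) * ((S.card : ℝ) ^ a * (N:ℝ) ^ (n - a)) := by
          apply sum_le_sum
          intro S _
          have : ∀ g ∈ (univ : Finset (Fin n → Fin N)).filter (fun g => A.image g = S), z ^ (a - (A.image g).card) = z ^ (a - S.card) := by
            intro g hg; rw [(mem_filter.mp hg).2]
          rw [sum_congr rfl this, sum_const, nsmul_eq_mul, mul_comm]
          apply mul_le_mul_of_nonneg_left _ (by positivity)
          have := card_image_eq_le A S
          rw [hA] at this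
          exact_mod_cast this
      _ = ∑ S ∈ (univ : Finset (Fin N)).powerset, if S.card ≤ a then
          z ^ (a - S.card) * ((S.card : ℝ) ^ a * (N:ℝ) ^ (n - a)) else 0 := by
          rw [sum_filter]
      _ = ∑ b ∈ range (N + 1), (N.choose b) • (if b ≤ a then
          z ^ (a - b) * ((b : ℝ) ^ a * (N:ℝ) ^ (n - a)) else 0) := by
          rw [sum_powerset_apply_card (fun b => if b ≤ a then
          z ^ (a - b) * ((b : ℝ) ^ a * (N:ℝ) ^ (n - a)) else 0)]
          simp
      _ ≤ ∑ b ∈ range (N+1), (if b ≤ a then (N:ℝ)^n * 3 ^ b else 0) := by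
          apply sum_le_sum
          intro b _
          split_ifs with h
          · rw [nsmul_eq_mul]; exact level_term n N a b ha han h hN z hz hza
          · simp
      _ ≤ ∑ b ∈ range (a+1), (N:ℝ)^n * 3 ^ b := by
          rw [← sum_filter]
          apply sum_le_sum_of_subset_of_nonneg
          · intro b hb; simp at hb ⊢; omega
          · intros; positivity
      _ = (N:ℝ)^n * ∑ b ∈ range (a+1), (3:ℝ)^b := by rw [mul_sum]
      _ ≤ (N:ℝ)^n * 6^a := by
          gcongr
          rw [geom_sum_eq (by norm_num)]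
          obtain ⟨m, rfl⟩ : ∃ m, a = m + 1 := ⟨a-1, by omega⟩
          have h1 : (3:ℝ)^(m+1+1) ≤ 9 * 6^m := by
            rw [pow_succ, pow_succ]
            have : (3:ℝ)^m ≤ 6^m := pow_le_pow_left₀ (by norm_num) (by norm_num) m
            linarith
          have h2 : (6:ℝ)^(m+1) = 6 * 6^m := by rw [pow_succ]; ring
          have h3 : (0:ℝ) < 6^m := by positivity
          rw [h2, div_le_iff₀ (by norm_num)]
          nlinarith
      _ = _ := by ring
  · intro g _
    rw [mem_filter, mem_powerset]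
    exact ⟨subset_univ _, by rw [← hA]; exact card_image_le⟩

/-- Markov-type count of the bad choices for one set `A` -/
lemma bad_count {t n : ℕ} (N : ℕ → ℕ) (hN : ∀ i, 0 < N i) (s r a : ℕ) (hs : s ≤ t)
    (A : Finset (Fin n)) (hA : A.card = a) (ha : 1 ≤ a)
    (z : ℝ) (hz : 1 ≤ z) (hza : ∀ i, i < s → z * a ≤ N i) :
    (((univ : Finset ((i : Fin t) → Fin n → Fin (N i))).filter
      (fun f => r ≤ ∑ i ∈ (univ : Finset (Fin t)).filter (fun i => i.val < s), (a - (A.image (f i)).card))).card : ℝ) * z ^ r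
      ≤ 6 ^ (s * a) * (Fintype.card ((i : Fin t) → Fin n → Fin (N i)) : ℝ) := by
  classical
  have hz0 : 0 ≤ z := by linarith
  let w : (i : Fin t) → (Fin n → Fin (N i)) → ℝ := fun i g => if i.val < s then z ^ (a - (A.image g).card) else 1
  have hw0 : ∀ i g, 0 ≤ w i g := by
    intro i g; simp only [w]; split_ifs <;> positivity
  have h1 : ∀ f : ((i : Fin t) → Fin n → Fin (N i)), ∏ i, w i (f i) =
      z ^ (∑ i ∈ (univ : Finset (Fin t)).filter (fun i => i.val < s), (a - (A.image (f i)).card)) := by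
    intro f
    rw [← prod_pow_eq_pow_sum, prod_filter]
  have h2 : ∑ f : ((i : Fin t) → Fin n → Fin (N i)), ∏ i, w i (f i) = ∏ i, ∑ g, w i g := by
    rw [Finset.prod_univ_sum, Fintype.piFinset_univ]
  have h3 : ∏ i, ∑ g, w i g ≤ ∏ i : Fin t, ((if i.val < s then (6:ℝ)^a else 1) * (N i : ℝ)^n) := by
    apply prod_le_prod
    · intro i _; exact sum_nonneg (fun g _ => hw0 i g)
    · intro i _
      by_cases hi : i.val < s
      · simp only [w, if_pos hi]
        exact level_sum n (N i) a A hA ha (hN i) z hz0 (hza i hi)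
      · simp only [w, if_neg hi]
        simp
  have h4 : ∏ i : Fin t, ((if i.val < s then (6:ℝ)^a else 1) * (N i : ℝ)^n)
      = 6 ^ (s * a) * (Fintype.card ((i : Fin t) → Fin n → Fin (N i)) : ℝ) := by
    rw [prod_mul_distrib]
    congr 1
    · rw [← prod_filter, prod_const, ← pow_mul, mul_comm]
      congr 2
      have : (univ : Finset (Fin t)).filter (fun i => i.val < s) = (univ : Finset (Fin s)).map (Fin.castLEEmb hs) := by
        ext i
        rw [mem_filter, mem_map]
        constructor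
        · intro h; exact ⟨⟨i.val, h.2⟩, mem_univ _, by ext; simp⟩
        · rintro ⟨j, _, rfl⟩; exact ⟨mem_univ _, by simp⟩
      rw [this, card_map, card_univ, Fintype.card_fin]
    · rw [Fintype.card_pi]
      push_cast
      apply prod_congr rfl
      intro i _
      rw [Fintype.card_fun, Fintype.card_fin, Fintype.card_fin]
      push_cast; rfl
  rw [← h4]
  refine le_trans ?_ h3
  rw [← h2]
  set Bad := (univ : Finset ((i : Fin t) → Fin n → Fin (N i))).filter
      (fun f => r ≤ ∑ i ∈ (univ : Finset (Fin t)).filter (fun i => i.val < s), (a - (A.image (f i)).card)) with hBad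
  calc (Bad.card : ℝ) * z ^ r = ∑ f ∈ Bad, z ^ r := by
        rw [sum_const, nsmul_eq_mul]
    _ ≤ ∑ f ∈ Bad, ∏ i, w i (f i) := by
        apply sum_le_sum
        intro f hf
        rw [h1]
        rw [hBad] at hf
        exact pow_le_pow_right₀ hz (mem_filter.mp hf).2
    _ ≤ _ := by
        apply sum_le_sum_of_subset_of_nonneg (filter_subset _ _)
        intro f _ _
        exact prod_nonneg (fun i _ => hw0 i (f i))

lemma key_bound (t s a n D' Ns r : ℕ) (ht : 1 ≤ t) (ha : 1 ≤ a) (hn : n = D' * Ns)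
    (hD : 81 * 1296 ^ s * (4 * t) ^ 4 ≤ D' ^ 7) (haD : a * D' ^ 12 ≤ n) (hD1 : 1 ≤ D') (hr : 5 * a ≤ 4 * r) :
    (n.choose a : ℝ) * 6 ^ (s * a) ≤ ((Ns:ℝ)/a)^r * (1/(4*t:ℝ))^a := by
  have ha' : (0:ℝ) < a := by exact_mod_cast ha
  have ht' : (0:ℝ) < t := by exact_mod_cast ht
  have hD' : (1:ℝ) ≤ D' := by exact_mod_cast hD1
  have hnr : (n:ℝ) = D' * Ns := by exact_mod_cast hn
  have haD' : (a:ℝ) * D' ^ 12 ≤ D' * Ns := by rw [← hnr]; exact_mod_cast haD
  set z : ℝ := (Ns:ℝ)/a with hz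
  have hzD : (D':ℝ)^11 ≤ z := by
    rw [hz, le_div_iff₀ ha']
    have h1 : (D':ℝ) * (D'^11 * a) ≤ D' * Ns := by
      calc (D':ℝ) * (D'^11 * a) = a * D'^12 := by ring
        _ ≤ _ := haD'
    exact le_of_mul_le_mul_left h1 (by linarith)
  have hz1 : 1 ≤ z := le_trans (one_le_pow₀ hD') hzD
  have hz0 : 0 < z := by linarith
  -- choose bound
  have hch : (n.choose a : ℝ) ≤ (3 * z * D')^a := by
    have h1 : (n.choose a : ℝ) ≤ (n:ℝ)^a / (a.factorial) := Nat.choose_le_pow_div a n
    have h2 : (a:ℝ)^a / (a.factorial) ≤ 3 ^ a := by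
      have := Real.pow_div_factorial_le_exp (a:ℝ) (by positivity) a
      refine this.trans ?_
      have e : Real.exp a = (Real.exp 1)^a := by rw [← Real.exp_nat_mul]; simp
      rw [e]
      have := Real.exp_one_lt_d9
      apply pow_le_pow_left₀ (by positivity)
      linarith
    have h3 : (n:ℝ) = z * a * D' := by rw [hnr, hz]; field_simp
    calc (n.choose a : ℝ) ≤ (n:ℝ)^a / (a.factorial) := h1
      _ = (z * D')^a * ((a:ℝ)^a / (a.factorial)) := by rw [h3]; ring
      _ ≤ (z * D')^a * 3^a := by gcongr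
      _ = (3 * z * D')^a := by rw [← mul_pow]; ring
  have h4 : ((n.choose a : ℝ) * 6 ^ (s * a))^4 ≤ (((z)^r * (1/(4*t:ℝ))^a))^4 := by
    have e1 : ((n.choose a : ℝ) * 6 ^ (s * a))^4 ≤ ((81 * 1296^s * D'^4) * z^4)^a := by
      calc ((n.choose a : ℝ) * 6 ^ (s * a))^4 ≤ ((3 * z * D')^a * 6 ^ (s * a))^4 := by gcongr
        _ = ((81 * 1296^s * D'^4) * z^4)^a := by
          rw [pow_mul, ← mul_pow, ← pow_mul, mul_comm a 4, pow_mul]
          congr 1
          have : (1296:ℝ)^s = (6^s)^4 := by rw [← pow_mul, mul_comm, pow_mul]; norm_num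
          rw [this]; ring
    have e2 : (81 * 1296^s * (D':ℝ)^4) * z^4 ≤ z^5 * (1/(4*t:ℝ))^4 := by
      have h5 : (81 * 1296^s * (4*t:ℝ)^4) ≤ (D':ℝ)^7 := by exact_mod_cast hD
      have h6 : 81 * 1296^s * (D':ℝ)^4 * (4*t:ℝ)^4 ≤ z := by
        calc 81 * 1296^s * (D':ℝ)^4 * (4*t:ℝ)^4 = (81 * 1296^s * (4*t:ℝ)^4) * D'^4 := by ring
          _ ≤ (D':ℝ)^7 * D'^4 := by gcongr
          _ = (D':ℝ)^11 := by ring
          _ ≤ z := hzD
      have h7 : (1/(4*t:ℝ))^4 = 1/(4*t:ℝ)^4 := by rw [div_pow, one_pow]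
      rw [h7, mul_one_div, le_div_iff₀ (by positivity)]
      calc 81 * 1296^s * (D':ℝ)^4 * z^4 * (4*t:ℝ)^4 = (81 * 1296^s * (D':ℝ)^4 * (4*t:ℝ)^4) * z^4 := by ring
        _ ≤ z * z^4 := by gcongr
        _ = z^5 := by ring
    calc ((n.choose a : ℝ) * 6 ^ (s * a))^4 ≤ ((81 * 1296^s * D'^4) * z^4)^a := e1
      _ ≤ (z^5 * (1/(4*t:ℝ))^4)^a := by gcongr
      _ = z^(5*a) * ((1/(4*t:ℝ))^a)^4 := by
          rw [mul_pow, ← pow_mul, ← pow_mul, ← pow_mul]; ring
      _ ≤ z^(4*r) * ((1/(4*t:ℝ))^a)^4 := by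
          gcongr
      _ = (((z)^r * (1/(4*t:ℝ))^a))^4 := by
          rw [mul_pow, ← pow_mul]; ring
  exact le_of_pow_le_pow_left₀ (by norm_num) (by positivity) h4

/-- the number `n` of vertices on the left -/
def nn (D t : ℕ) : ℕ := D ^ (13 ^ t)

/-- the sizes of the levels -/
def NN (D t i : ℕ) : ℕ := D ^ (13 ^ t - 13 ^ i)

lemma NN_pos (D t : ℕ) (hD : 1 ≤ D) (i : ℕ) : 0 < NN D t i := Nat.pow_pos (by omega)

lemma nn_eq (D t i : ℕ) (hi : i ≤ t) : nn D t = D ^ (13 ^ i) * NN D t i := by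
  unfold nn NN
  rw [← pow_add]
  congr 1
  have := Nat.pow_le_pow_right (show 0 < 13 by norm_num) hi
  omega

lemma lt_pow13 (s : ℕ) : s + 1 ≤ 13 ^ s := by
  have := Nat.lt_pow_self (n := s) (show 1 < 13 by norm_num)
  omega

end Pool.Agent.KS6_65.QR
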