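import Mathlib
import Pool.Agent.KS6_65.QR.Basic

set_option autoImplicit false

/-!
# The random bipartite graph with `t` groups of `m` levels

`n = D ^ (13 ^ t)` left vertices; for `i < t * m` the `i`-th level has
`D ^ (13 ^ t - 13 ^ (i / m))` vertices and every left vertex has exactly one neighbour in it.
-/

namespace Pool.Agent.KS6_65.QR

open Finset

lemma hD_cond' (D t m s : ℕ) (hD64 : 64 * t ≤ D) (hD36 : 36 ^ m ≤ D) (ht : 1 ≤ t) (hs : 1 ≤ s) :
    81 * 1296 ^ (s * m) * (4 * t) ^ 4 ≤ (D ^ (13 ^ (s-1))) ^ 7 := by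
  have h1 : D ^ s ≤ D ^ (13 ^ (s-1)) := by
    apply Nat.pow_le_pow_right (by omega)
    have := lt_pow13 (s-1)
    omega
  have h2 : 1296 ^ (s * m) ≤ (D ^ (13 ^ (s-1)))^2 := by
    calc 1296 ^ (s * m) = ((36 ^ m) ^ s) ^ 2 := by
          rw [← pow_mul, ← pow_mul, show (1296 : ℕ) = 36 ^ 2 by norm_num, ← pow_mul]
          congr 1; ring
      _ ≤ (D^s)^2 := Nat.pow_le_pow_left (Nat.pow_le_pow_left hD36 s) 2
      _ ≤ _ := Nat.pow_le_pow_left h1 2
  have h3 : 64 * t ≤ D ^ (13 ^ (s-1)) := by
    calc 64 * t ≤ D := hD64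
      _ = D ^ 1 := (pow_one D).symm
      _ ≤ D ^ s := Nat.pow_le_pow_right (by omega) hs
      _ ≤ _ := h1
  have h4 : (64 * t)^5 ≤ (D ^ (13 ^ (s-1)))^5 := Nat.pow_le_pow_left h3 5
  have h5 : 81 * (4 * t)^4 ≤ (64 * t)^5 := by
    have e1 : 81 * (4 * t)^4 = 20736 * t^4 := by ring
    have e2 : (64 * t)^5 = 1073741824 * t^4 * t := by ring
    rw [e1, e2]
    nlinarith [pow_pos (show 0 < t by omega) 4]
  calc 81 * 1296 ^ (s * m) * (4 * t) ^ 4 = 1296 ^ (s * m) * (81 * (4*t)^4) := by ring
    _ ≤ (D ^ (13 ^ (s-1)))^2 * (D ^ (13 ^ (s-1)))^5 := Nat.mul_le_mul h2 (h5.trans h4)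
    _ = _ := by ring

lemma exists_good' (D t m : ℕ) (ht : 1 ≤ t) (hm : 1 ≤ m) (hD64 : 64 * t ≤ D) (hD36 : 36 ^ m ≤ D) :
    ∃ f : (i : Fin (t * m)) → Fin (nn D t) → Fin (NN D t (i / m)),
      ∀ s, 1 ≤ s → s ≤ t → ∀ A : Finset (Fin (nn D t)), A.Nonempty →
        A.card * D ^ (12 * 13 ^ (s - 1)) ≤ nn D t →
        4 * ∑ i ∈ (univ : Finset (Fin (t * m))).filter (fun i => i.val < s * m), (A.card - (A.image (f i)).card)
          < 5 * A.card := by
  classical
  have hD1 : 1 ≤ D := by omega
  have hfd : ∀ s, 1 ≤ s → ∀ i, i < s * m → i / m ≤ s - 1 := by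
    intro s hs i hi
    have : i / m < s := by
      rw [Nat.div_lt_iff_lt_mul (by omega)]; exact hi
    omega
  by_contra hcon
  push Not at hcon
  set T : ℝ := (Fintype.card ((i : Fin (t * m)) → Fin (nn D t) → Fin (NN D t (i / m))) : ℝ) with hT
  have hTpos : 0 < T := by
    rw [hT]
    have : 0 < Fintype.card ((i : Fin (t * m)) → Fin (nn D t) → Fin (NN D t (i / m))) := by
      rw [Fintype.card_pos_iff]
      exact ⟨fun i _ => ⟨0, NN_pos D t hD1 (i / m)⟩⟩
    exact_mod_cast this
  let Bad : ℕ → Finset (Fin (nn D t)) → Finset ((i : Fin (t * m)) → Fin (nn D t) → Fin (NN D t (i / m))) :=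
    fun s A => univ.filter (fun f => (5 * A.card + 3)/4 ≤ ∑ i ∈ (univ : Finset (Fin (t * m))).filter (fun i => i.val < s * m), (A.card - (A.image (f i)).card))
  let Val : ℕ → Finset (Finset (Fin (nn D t))) :=
    fun s => univ.powerset.filter (fun A => 1 ≤ A.card ∧ A.card * D ^ (12 * 13 ^ (s-1)) ≤ nn D t)
  have hcover : (univ : Finset ((i : Fin (t * m)) → Fin (nn D t) → Fin (NN D t (i / m)))) ⊆
      (Icc 1 t).biUnion (fun s => (Val s).biUnion (fun A => Bad s A)) := by
    intro f _
    obtain ⟨s, hs1, hst, A, hA, hAn, hle⟩ := hcon f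
    rw [mem_biUnion]
    refine ⟨s, by rw [mem_Icc]; exact ⟨hs1, hst⟩, ?_⟩
    rw [mem_biUnion]
    refine ⟨A, ?_, ?_⟩
    · simp only [Val]
      rw [mem_filter]
      exact ⟨mem_powerset.mpr (subset_univ _), card_pos.mpr hA, hAn⟩
    · simp only [Bad]
      rw [mem_filter]
      refine ⟨mem_univ _, ?_⟩
      omega
  have hbad : ∀ s ∈ Icc 1 t, ∀ A ∈ Val s, ((Bad s A).card : ℝ) ≤
      6 ^ ((s * m) * A.card) * T / ((NN D t (s-1) : ℝ)/A.card) ^ ((5 * A.card + 3)/4) := by
    intro s hs A hA
    rw [mem_Icc] at hs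
    simp only [Val] at hA
    rw [mem_filter] at hA
    have ha : (0:ℝ) < A.card := by exact_mod_cast hA.2.1
    have hnneq := nn_eq D t (s-1) (by omega)
    have hz : 1 ≤ (NN D t (s-1) : ℝ)/A.card := by
      rw [le_div_iff₀ ha, one_mul]
      have h1 : A.card * D ^ (12 * 13 ^ (s-1)) ≤ D ^ (13 ^ (s-1)) * NN D t (s-1) := by
        rw [← hnneq]; exact hA.2.2
      have h2 : D ^ (13 ^ (s-1)) ≤ D ^ (12 * 13 ^ (s-1)) := Nat.pow_le_pow_right (by omega) (by omega)
      have h3 : A.card * D ^ (13 ^ (s-1)) ≤ NN D t (s-1) * D ^ (13 ^ (s-1)) := by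
        calc A.card * D ^ (13 ^ (s-1)) ≤ A.card * D ^ (12 * 13 ^ (s-1)) := Nat.mul_le_mul_left _ h2
          _ ≤ _ := h1
          _ = _ := mul_comm _ _
      have h4 := Nat.le_of_mul_le_mul_right h3 (Nat.pow_pos (by omega))
      exact_mod_cast h4
    have hb := bad_count (t := t * m) (n := nn D t) (fun i => NN D t (i / m)) (fun i => NN_pos D t hD1 (i / m))
      (s * m) ((5 * A.card + 3)/4) A.card (Nat.mul_le_mul_right m hs.2) A rfl hA.2.1
      ((NN D t (s-1) : ℝ)/A.card) hz (by
        intro i hi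
        rw [div_mul_cancel₀ _ ha.ne']
        have hi' := hfd s hs.1 i hi
        have : NN D t (s-1) ≤ NN D t (i / m) := by
          unfold NN
          apply Nat.pow_le_pow_right (by omega)
          have := Nat.pow_le_pow_right (show 0 < 13 by norm_num) hi'
          omega
        exact_mod_cast this)
    rw [le_div_iff₀ (by positivity)]
    exact hb
  have hsum1 : ∀ s ∈ Icc 1 t, ∑ A ∈ Val s, ((Bad s A).card : ℝ) ≤ T * ((4/3) * (1/(4*t:ℝ))) := by
    intro s hs
    have hs' := mem_Icc.mp hs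
    refine (sum_le_sum (hbad s hs)).trans ?_
    have ht' : (0:ℝ) < t := by exact_mod_cast ht
    calc ∑ A ∈ Val s, 6 ^ ((s * m) * A.card) * T / ((NN D t (s-1) : ℝ)/A.card) ^ ((5 * A.card + 3)/4)
        = ∑ A ∈ (univ : Finset (Fin (nn D t))).powerset, (fun a : ℕ => if (1 ≤ a ∧ a * D ^ (12 * 13 ^ (s-1)) ≤ nn D t) then
            6 ^ ((s * m) * a) * T / ((NN D t (s-1) : ℝ)/a) ^ ((5 * a + 3)/4) else 0) A.card := by
          simp only [Val]; rw [sum_filter]
      _ = ∑ a ∈ range (nn D t + 1), ((nn D t).choose a) • (if (1 ≤ a ∧ a * D ^ (12 * 13 ^ (s-1)) ≤ nn D t) then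
            6 ^ ((s * m) * a) * T / ((NN D t (s-1) : ℝ)/a) ^ ((5 * a + 3)/4) else 0) := by
          rw [sum_powerset_apply_card (fun a : ℕ => if (1 ≤ a ∧ a * D ^ (12 * 13 ^ (s-1)) ≤ nn D t) then
            6 ^ ((s * m) * a) * T / ((NN D t (s-1) : ℝ)/a) ^ ((5 * a + 3)/4) else 0), card_univ, Fintype.card_fin]
      _ ≤ ∑ a ∈ range (nn D t + 1), (if 1 ≤ a then T * (1/(4*t:ℝ))^a else 0) := by
          apply sum_le_sum
          intro a _
          by_cases h : (1 ≤ a ∧ a * D ^ (12 * 13 ^ (s-1)) ≤ nn D t)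
          · rw [if_pos h, if_pos h.1, nsmul_eq_mul]
            have ha : (0:ℝ) < a := by exact_mod_cast h.1
            have hNp : (0:ℝ) < NN D t (s-1) := by exact_mod_cast NN_pos D t hD1 (s-1)
            have hkb := key_bound t (s * m) a (nn D t) (D ^ (13 ^ (s-1))) (NN D t (s-1)) ((5*a+3)/4) ht h.1
              (nn_eq D t (s-1) (by omega)) (hD_cond' D t m s hD64 hD36 ht hs'.1) (by
                have : (D ^ (13 ^ (s-1)))^12 = D ^ (12 * 13 ^ (s-1)) := by rw [← pow_mul]; congr 1; ring
                rw [this]; exact h.2) (Nat.one_le_pow _ _ (by omega)) (by omega)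
            have hzp : (0:ℝ) < ((NN D t (s-1) : ℝ)/a) ^ ((5 * a + 3)/4) := by positivity
            rw [mul_div_assoc', div_le_iff₀ hzp]
            calc ((nn D t).choose a : ℝ) * (6 ^ ((s * m) * a) * T) = (((nn D t).choose a : ℝ) * 6 ^ ((s * m) * a)) * T := by ring
              _ ≤ (((NN D t (s-1) : ℝ)/a)^((5*a+3)/4) * (1/(4*t:ℝ))^a) * T := by gcongr
              _ = _ := by ring
          · rw [if_neg h]; simp only [smul_zero]
            split_ifs
            · positivity
            · exact le_refl _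
      _ ≤ T * ∑' k : ℕ, (1/(4*t:ℝ))^(k+1) := by
          rw [← sum_filter]
          have e : (range (nn D t + 1)).filter (fun a => 1 ≤ a) = (range (nn D t)).image (fun k => k+1) := by
            ext a; rw [mem_filter, mem_range, mem_image]
            constructor
            · intro h; exact ⟨a-1, by rw [mem_range]; omega, by omega⟩
            · rintro ⟨k, hk, rfl⟩; rw [mem_range] at hk; omega
          rw [e, sum_image (by intro a _ b _ h; simpa using h), ← mul_sum]
          apply mul_le_mul_of_nonneg_left _ hTpos.le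
          have hx1 : 1/(4*t:ℝ) < 1 := by
            rw [div_lt_one (by positivity)]
            have : (1:ℝ) ≤ t := by exact_mod_cast ht
            linarith
          have hsm : Summable (fun k : ℕ => (1/(4*t:ℝ))^(k+1)) := by
            simpa [pow_succ] using (summable_geometric_of_lt_one (by positivity) hx1).mul_right (1/(4*t:ℝ))
          exact hsm.sum_le_tsum _ (fun k _ => by positivity)
      _ ≤ T * ((4/3) * (1/(4*t:ℝ))) := by
          apply mul_le_mul_of_nonneg_left _ hTpos.le
          have ht1 : (1:ℝ) ≤ t := by exact_mod_cast ht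
          have hx1 : 1/(4*t:ℝ) ≤ 1/4 := by
            apply div_le_div_of_nonneg_left (by norm_num) (by norm_num)
            linarith
          have hx0 : 0 ≤ 1/(4*t:ℝ) := by positivity
          have : (fun k : ℕ => (1/(4*t:ℝ))^(k+1)) = fun k => (1/(4*t:ℝ))^k * (1/(4*t:ℝ)) := by ext k; rw [pow_succ]
          rw [this, tsum_mul_right, tsum_geometric_of_lt_one hx0 (by linarith)]
          apply mul_le_mul_of_nonneg_right _ hx0
          rw [inv_le_comm₀ (by linarith) (by norm_num)]
          have e34 : ((4:ℝ)/3)⁻¹ = 3/4 := by norm_num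
          rw [e34]
          linarith
  have hfin : T ≤ ∑ s ∈ Icc 1 t, ∑ A ∈ Val s, ((Bad s A).card : ℝ) := by
    have h1 := (card_le_card hcover).trans card_biUnion_le
    have h2 : ∀ s, ((Val s).biUnion (fun A => Bad s A)).card ≤ ∑ A ∈ Val s, (Bad s A).card := fun s => card_biUnion_le
    have h3 := h1.trans (sum_le_sum (fun s _ => h2 s))
    rw [card_univ] at h3
    rw [hT]
    exact_mod_cast h3
  have hfin2 := hfin.trans (sum_le_sum hsum1)
  rw [sum_const, Nat.card_Icc, nsmul_eq_mul] at hfin2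
  have ht' : (0:ℝ) < t := by exact_mod_cast ht
  have e : ((t + 1 - 1 : ℕ) : ℝ) * (T * ((4/3) * (1/(4*t:ℝ)))) = T * (1/3) := by
    rw [Nat.add_sub_cancel]; field_simp
  rw [e] at hfin2
  linarith


section det

variable {t n : ℕ} {N : ℕ → ℕ}

/-- the bipartite graph of the functions `f i` -/
def Gr (f : (i : Fin t) → Fin n → Fin (N i)) : SimpleGraph (Fin n ⊕ (Σ i : Fin t, Fin (N i))) :=
  SimpleGraph.fromRel (fun u v => ∃ x i, u = Sum.inl x ∧ v = Sum.inr ⟨i, f i x⟩)

lemma Gr_adj_inl (f : (i : Fin t) → Fin n → Fin (N i)) (x : Fin n) (w : Fin n ⊕ (Σ i : Fin t, Fin (N i)))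
    (h : (Gr f).Adj (Sum.inl x) w) : ∃ i, w = Sum.inr ⟨i, f i x⟩ := by
  rw [Gr, SimpleGraph.fromRel_adj] at h
  rcases h.2 with ⟨y, i, h1, h2⟩ | ⟨y, i, h1, h2⟩
  · rw [Sum.inl.injEq] at h1
    subst h1
    exact ⟨i, h2⟩
  · simp at h2

lemma Gr_adj_inr (f : (i : Fin t) → Fin n → Fin (N i)) (i : Fin t) (j : Fin (N i)) (w : Fin n ⊕ (Σ i : Fin t, Fin (N i)))
    (h : (Gr f).Adj (Sum.inr ⟨i, j⟩) w) : ∃ x, w = Sum.inl x ∧ f i x = j := by
  rw [Gr, SimpleGraph.fromRel_adj] at h
  rcases h.2 with ⟨y, k, h1, h2⟩ | ⟨y, k, h1, h2⟩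
  · simp at h1
  · refine ⟨y, h1, ?_⟩
    rw [Sum.inr.injEq, Sigma.mk.injEq] at h2
    obtain ⟨h3, h4⟩ := h2
    subst h3
    exact (eq_of_heq h4).symm

end det

open Classical in
/-- the deterministic part -/
lemma det_part' (k m t Δ D : ℕ) (hk : 2 ≤ k) (hm : 1 ≤ m) (hmk : 2 * m ≤ k) (ht : 1 ≤ t) (hD1 : 1 ≤ D)
    (hD : 8 * Δ * (t * m) ≤ D)
    (f : (i : Fin (t * m)) → Fin (nn D t) → Fin (NN D t (i / m)))
    (hf : ∀ s, 1 ≤ s → s ≤ t → ∀ A : Finset (Fin (nn D t)), A.Nonempty →
        A.card * D ^ (12 * 13 ^ (s - 1)) ≤ nn D t →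
        4 * ∑ i ∈ (univ : Finset (Fin (t * m))).filter (fun i => i.val < s * m), (A.card - (A.image (f i)).card)
          < 5 * A.card)
    (K : (Fin (nn D t) ⊕ (Σ i : Fin (t * m), Fin (NN D t (i / m)))) →
      (Fin (nn D t) ⊕ (Σ i : Fin (t * m), Fin (NN D t (i / m)))) → Prop)
    (S : Set (Fin (nn D t) ⊕ (Σ i : Fin (t * m), Fin (NN D t (i / m)))))
    (hsymm : ∀ u v, K u v → K v u)
    (hK : ∀ u v, K u v → (Gr (N := fun i => NN D t (i / m)) f).Adj u v) (hKS : ∀ u v, K u v → u ∈ S)
    (hS : S.Nonempty) (h3 : ∀ v ∈ S, k + 1 ≤ {w | K v w}.ncard) (hΔ : ∀ v ∈ S, {w | K v w}.ncard ≤ Δ) : False := by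
  have hT1 : 1 ≤ t * m := Nat.mul_pos ht hm
  let E : Fin (t * m) → Finset (Fin (nn D t)) := fun i => univ.filter (fun x => K (Sum.inl x) (Sum.inr ⟨i, f i x⟩))
  let A : Finset (Fin (nn D t)) := univ.filter (fun x => Sum.inl x ∈ S)
  have hEA : ∀ i, E i ⊆ A := by
    intro i x hx
    simp only [E, mem_filter] at hx
    simp only [A, mem_filter]
    exact ⟨mem_univ _, hKS _ _ hx.2⟩
  have hA : A.Nonempty := by
    obtain ⟨v, hv⟩ := hS
    rcases v with x | ⟨i, j⟩
    · exact ⟨x, by simp only [A, mem_filter]; exact ⟨mem_univ _, hv⟩⟩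
    · have h := h3 _ hv
      have hne : {w | K (Sum.inr ⟨i, j⟩) w}.Nonempty := by
        apply Set.nonempty_of_ncard_ne_zero; omega
      obtain ⟨w, hw⟩ := hne
      obtain ⟨x, rfl, _⟩ := Gr_adj_inr (N := fun i => NN D t (i / m)) f i j w (hK _ _ hw)
      exact ⟨x, by simp only [A, mem_filter]; exact ⟨mem_univ _, hKS _ _ (hsymm _ _ hw)⟩⟩
  -- degrees on the left
  have hleft : ∀ x ∈ A, k + 1 ≤ ((univ : Finset (Fin (t * m))).filter (fun i => x ∈ E i)).card := by
    intro x hx
    simp only [A, mem_filter] at hx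
    have h := h3 _ hx.2
    refine h.trans ?_
    have hsub : {w | K (Sum.inl x) w} ⊆ (((univ : Finset (Fin (t * m))).filter (fun i => x ∈ E i)).image
        (fun i => (Sum.inr ⟨i, f i x⟩ : (Fin (nn D t) ⊕ (Σ i : Fin (t * m), Fin (NN D t (i / m)))))) : Finset _) := by
      intro w hw
      obtain ⟨i, rfl⟩ := Gr_adj_inl (N := fun i => NN D t (i / m)) f x w (hK _ _ hw)
      rw [mem_coe, mem_image]
      refine ⟨i, ?_, rfl⟩
      rw [mem_filter]
      refine ⟨mem_univ _, ?_⟩
      simp only [E, mem_filter]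
      exact ⟨mem_univ _, hw⟩
    refine (Set.ncard_le_ncard hsub (Finset.finite_toSet _)).trans ?_
    rw [Set.ncard_coe_finset]
    exact card_image_le
  have hsumE : (k + 1) * A.card ≤ ∑ i, (E i).card := by
    have h1 : ∑ i : Fin (t * m), (E i).card = ∑ x ∈ A, ((univ : Finset (Fin (t * m))).filter (fun i => x ∈ E i)).card := by
      have e1 : ∀ i : Fin (t * m), (E i).card = ∑ x ∈ A, if x ∈ E i then 1 else 0 := by
        intro i
        rw [← sum_filter, sum_const, smul_eq_mul, mul_one]
        have e0 : E i = A.filter (fun x => x ∈ E i) := by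
          ext x
          constructor
          · intro h; exact Finset.mem_filter.mpr ⟨hEA i h, h⟩
          · intro h; exact (Finset.mem_filter.mp h).2
        exact congrArg Finset.card e0
      have e2 : ∀ x, ((univ : Finset (Fin (t * m))).filter (fun i => x ∈ E i)).card = ∑ i : Fin (t * m), if x ∈ E i then 1 else 0 := by
        intro x; rw [card_filter]
      rw [sum_congr rfl (fun i _ => e1 i), sum_comm, sum_congr rfl (fun x _ => e2 x)]
    rw [h1]
    calc (k + 1) * A.card = ∑ x ∈ A, (k + 1) := by rw [sum_const, smul_eq_mul, mul_comm]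
      _ ≤ _ := sum_le_sum hleft
  -- fibres on the right
  have hfib : ∀ i, ∀ j ∈ (E i).image (f i), k + 1 ≤ ((E i).filter (fun x => f i x = j)).card ∧
      ((E i).filter (fun x => f i x = j)).card ≤ Δ := by
    intro i j hj
    rw [mem_image] at hj
    obtain ⟨x, hx, rfl⟩ := hj
    simp only [E, mem_filter] at hx
    have hmem : (Sum.inr ⟨i, f i x⟩ : (Fin (nn D t) ⊕ (Σ i : Fin (t * m), Fin (NN D t (i / m))))) ∈ S := hKS _ _ (hsymm _ _ hx.2)
    have heq : {w | K (Sum.inr ⟨i, f i x⟩) w}.ncard = ((E i).filter (fun y => f i y = f i x)).card := by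
      have : {w | K (Sum.inr ⟨i, f i x⟩) w} = Sum.inl '' (((E i).filter (fun y => f i y = f i x) : Finset _) : Set (Fin (nn D t))) := by
        ext w
        constructor
        · intro hw
          obtain ⟨y, rfl, hy⟩ := Gr_adj_inr (N := fun i => NN D t (i / m)) f i (f i x) w (hK _ _ hw)
          refine ⟨y, ?_, rfl⟩
          rw [mem_coe, mem_filter]
          refine ⟨?_, hy⟩
          simp only [E, mem_filter]
          refine ⟨mem_univ _, ?_⟩
          rw [hy]
          exact hsymm _ _ hw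
        · rintro ⟨y, hy, rfl⟩
          rw [mem_coe, mem_filter] at hy
          have hy1 := hy.1
          simp only [E, mem_filter] at hy1
          rw [hy.2] at hy1
          exact hsymm _ _ hy1.2
      rw [this, Set.ncard_image_of_injective _ Sum.inl_injective, Set.ncard_coe_finset]
    rw [← heq]
    exact ⟨h3 _ hmem, hΔ _ hmem⟩
  have hlow : ∀ i, (k + 1) * ((E i).image (f i)).card ≤ (E i).card := fun i =>
    Finset.mul_card_image_le_card (E i) (k + 1) (fun j hj => (hfib i j hj).1)
  have hup : ∀ i : Fin (t * m), (E i).card ≤ Δ * NN D t (i / m) := by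
    intro i
    have h1 := Finset.card_le_mul_card_image (f := f i) (E i) Δ (fun j hj => (hfib i j hj).2)
    refine h1.trans (Nat.mul_le_mul_left _ ?_)
    have := card_le_univ ((E i).image (f i))
    rwa [Fintype.card_fin] at this
  have hcol : ∀ i, k * (E i).card ≤ (k + 1) * (A.card - (A.image (f i)).card) := by
    intro i
    have h1 : (A.image (f i)).card ≤ ((E i).image (f i)).card + (A.card - (E i).card) := by
      have : A.image (f i) ⊆ (E i).image (f i) ∪ (A \ E i).image (f i) := by
        rw [← image_union, union_sdiff_of_subset (hEA i)]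
      refine (card_le_card this).trans ((card_union_le _ _).trans ?_)
      have h2 : ((A \ E i).image (f i)).card ≤ A.card - (E i).card := by
        refine card_image_le.trans ?_
        rw [card_sdiff_of_subset (hEA i)]
      omega
    have h2 := hlow i
    have h3 := card_le_card (hEA i)
    have h5 : (E i).card ≤ (A.card - (A.image (f i)).card) + ((E i).image (f i)).card := by omega
    have h6 := Nat.mul_le_mul_left (k + 1) h5
    rw [Nat.mul_add] at h6
    have h7 : (k + 1) * (E i).card = k * (E i).card + (E i).card := by ring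
    omega
  have hEcard : ∀ i, (E i).card ≤ A.card := fun i => card_le_card (hEA i)
  -- choose the threshold level
  have hmain : ∃ s, s ≤ t ∧ (∀ i, i < s → A.card * D ^ (12 * 13 ^ i) ≤ nn D t) ∧
      (s < t → nn D t < A.card * D ^ (12 * 13 ^ s)) := by
    by_cases hex : ∃ s, s < t ∧ nn D t < A.card * D ^ (12 * 13 ^ s)
    · have h1 := Nat.find_spec hex
      refine ⟨Nat.find hex, h1.1.le, ?_, fun _ => h1.2⟩
      intro i hi
      have := Nat.find_min hex hi
      push Not at this
      exact this (by omega)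
    · push Not at hex
      exact ⟨t, le_refl _, fun i hi => hex i hi, fun h => absurd h (lt_irrefl _)⟩
  obtain ⟨s, hst, hlt, hge⟩ := hmain
  have hApos : 1 ≤ A.card := card_pos.mpr hA
  have hdlt : ∀ i : Fin (t * m), i.val / m < t := by
    intro i
    rw [Nat.div_lt_iff_lt_mul (by omega)]
    exact i.2
  have hbig : ∀ i : Fin (t * m), s < i.val / m → 8 * (t * m) * (E i).card ≤ A.card := by
    intro i hi
    have hit := hdlt i
    have hst' : s < t := by omega
    have h1 := hge hst'
    have h1e := nn_eq D t (i / m) (by omega)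
    have h1 : D ^ (13 ^ (i.val / m)) * NN D t (i / m) < A.card * D ^ (12 * 13 ^ s) := by rw [← h1e]; exact h1
    have h2 : 12 * 13 ^ s + 1 ≤ 13 ^ (i.val / m) := by
      have h3 : 13 ^ (s+1) ≤ 13 ^ (i.val / m) := Nat.pow_le_pow_right (by norm_num) hi
      have h4 : 0 < 13 ^ s := Nat.pow_pos (by norm_num)
      rw [pow_succ] at h3
      omega
    have h3 : D ^ (12 * 13 ^ s) * D ≤ D ^ (13 ^ (i.val / m)) := by
      rw [← pow_succ]
      exact Nat.pow_le_pow_right (by omega) h2
    have h4 : D ^ (12 * 13 ^ s) * (D * NN D t (i / m)) < D ^ (12 * 13 ^ s) * A.card := by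
      calc D ^ (12 * 13 ^ s) * (D * NN D t (i / m)) = (D ^ (12 * 13 ^ s) * D) * NN D t (i / m) := by ring
        _ ≤ D ^ (13 ^ (i.val / m)) * NN D t (i / m) := Nat.mul_le_mul_right _ h3
        _ < A.card * D ^ (12 * 13 ^ s) := h1
        _ = _ := mul_comm _ _
    have h5 : D * NN D t (i / m) < A.card := Nat.lt_of_mul_lt_mul_left h4
    calc 8 * (t * m) * (E i).card ≤ 8 * (t * m) * (Δ * NN D t (i / m)) := Nat.mul_le_mul_left _ (hup i)
      _ = (8 * Δ * (t * m)) * NN D t (i / m) := by ring
      _ ≤ D * NN D t (i / m) := Nat.mul_le_mul_right _ hD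
      _ ≤ A.card := h5.le
  have hsum3 : 8 * ∑ i ∈ (univ : Finset (Fin (t * m))).filter (fun i => s < i.val / m), (E i).card ≤ A.card := by
    have h1 : (t * m) * (8 * ∑ i ∈ (univ : Finset (Fin (t * m))).filter (fun i => s < i.val / m), (E i).card) ≤ (t * m) * A.card := by
      calc (t * m) * (8 * ∑ i ∈ (univ : Finset (Fin (t * m))).filter (fun i => s < i.val / m), (E i).card)
          = ∑ i ∈ (univ : Finset (Fin (t * m))).filter (fun i => s < i.val / m), 8 * (t * m) * (E i).card := by
            rw [← mul_sum]; ring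
        _ ≤ ∑ i ∈ (univ : Finset (Fin (t * m))).filter (fun i => s < i.val / m), A.card := by
            apply sum_le_sum
            intro i hi
            exact hbig i (mem_filter.mp hi).2
        _ = ((univ : Finset (Fin (t * m))).filter (fun i => s < i.val / m)).card * A.card := by
            rw [sum_const, smul_eq_mul]
        _ ≤ (t * m) * A.card := by
            apply Nat.mul_le_mul_right
            have := card_le_univ ((univ : Finset (Fin (t * m))).filter (fun i => s < i.val / m))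
            rwa [Fintype.card_fin] at this
    exact Nat.le_of_mul_le_mul_left h1 (by omega)
  have hsum2 : ∑ i ∈ (univ : Finset (Fin (t * m))).filter (fun i => i.val / m = s), (E i).card ≤ m * A.card := by
    have hc : ((univ : Finset (Fin (t * m))).filter (fun i => i.val / m = s)).card ≤ m := by
      have hinj : Set.InjOn (fun i : Fin (t * m) => i.val % m)
          ((univ : Finset (Fin (t * m))).filter (fun i => i.val / m = s) : Finset (Fin (t * m))) := by
        intro i hi j hj hij
        rw [mem_coe, mem_filter] at hi hj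
        simp only at hij
        ext
        rw [← Nat.div_add_mod i.val m, ← Nat.div_add_mod j.val m, hi.2, hj.2, hij]
      have himg : ((univ : Finset (Fin (t * m))).filter (fun i => i.val / m = s)).image (fun i : Fin (t * m) => i.val % m) ⊆ range m := by
        intro x hx
        rw [mem_image] at hx
        obtain ⟨i, _, rfl⟩ := hx
        rw [mem_range]
        exact Nat.mod_lt _ (by omega)
      have h1 := card_le_card himg
      rw [card_image_of_injOn hinj, card_range] at h1
      exact h1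
    calc ∑ i ∈ (univ : Finset (Fin (t * m))).filter (fun i => i.val / m = s), (E i).card
        ≤ ∑ i ∈ (univ : Finset (Fin (t * m))).filter (fun i => i.val / m = s), A.card := sum_le_sum (fun i _ => hEcard i)
      _ = ((univ : Finset (Fin (t * m))).filter (fun i => i.val / m = s)).card * A.card := by rw [sum_const, smul_eq_mul]
      _ ≤ m * A.card := Nat.mul_le_mul_right _ hc
  have hsplit : ∑ i, (E i).card = ∑ i ∈ (univ : Finset (Fin (t * m))).filter (fun i => i.val < s * m), (E i).card +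
      (∑ i ∈ (univ : Finset (Fin (t * m))).filter (fun i => i.val / m = s), (E i).card +
       ∑ i ∈ (univ : Finset (Fin (t * m))).filter (fun i => s < i.val / m), (E i).card) := by
    rw [sum_filter, sum_filter, sum_filter, ← sum_add_distrib, ← sum_add_distrib]
    apply sum_congr rfl
    intro i _
    have hiff : i.val < s * m ↔ i.val / m < s := (Nat.div_lt_iff_lt_mul (by omega)).symm
    rcases lt_trichotomy (i.val / m) s with h | h | h
    · rw [if_pos (hiff.mpr h), if_neg (by omega), if_neg (by omega)]; ring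
    · rw [if_neg (by rw [hiff]; omega), if_pos h, if_neg (by omega)]; ring
    · rw [if_neg (by rw [hiff]; omega), if_neg (by omega), if_pos h]; ring
  have hsum1 : k * ∑ i ∈ (univ : Finset (Fin (t * m))).filter (fun i => i.val < s * m), (E i).card ≤
      (k + 1) * ∑ i ∈ (univ : Finset (Fin (t * m))).filter (fun i => i.val < s * m), (A.card - (A.image (f i)).card) := by
    rw [mul_sum, mul_sum]
    exact sum_le_sum (fun i _ => hcol i)
  rcases Nat.eq_zero_or_pos s with hs0 | hs0
  · have : (univ : Finset (Fin (t * m))).filter (fun i => i.val < s * m) = ∅ := by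
      rw [filter_eq_empty_iff]; intro i _; rw [hs0]; omega
    rw [this, sum_empty] at hsplit
    have h9 : (k + 1) * A.card ≤ m * A.card + A.card := by omega
    have h10 : 2 * m * A.card ≤ k * A.card := Nat.mul_le_mul_right _ hmk
    nlinarith
  · have hg := hf s hs0 hst A hA (hlt (s-1) (by omega))
    generalize ∑ i ∈ (univ : Finset (Fin (t * m))).filter (fun i => i.val < s * m), (A.card - (A.image (f i)).card) = Cc at hg hsum1
    generalize ∑ i ∈ (univ : Finset (Fin (t * m))).filter (fun i => i.val < s * m), (E i).card = S1 at hsum1 hsplit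
    generalize ∑ i ∈ (univ : Finset (Fin (t * m))).filter (fun i => i.val / m = s), (E i).card = S2 at hsum2 hsplit
    generalize ∑ i ∈ (univ : Finset (Fin (t * m))).filter (fun i => s < i.val / m), (E i).card = S3 at hsum3 hsplit
    rw [hsplit] at hsumE
    generalize A.card = a at *
    have h1 : 8 * (k + 1) * a ≤ 8 * S1 + 8 * m * a + a := by nlinarith
    have h2 : 8 * m * a ≤ 4 * k * a := by nlinarith
    have h3 : (4 * k + 7) * a ≤ 8 * S1 := by nlinarith
    have h4 : k * ((4 * k + 7) * a) ≤ k * (8 * S1) := Nat.mul_le_mul_left _ h3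
    have h5 : k * (8 * S1) ≤ 8 * ((k + 1) * Cc) := by nlinarith
    have h6 : (k + 1) * (4 * Cc) < (k + 1) * (5 * a) := Nat.mul_lt_mul_of_pos_left hg (by omega)
    have h7 : k * ((4 * k + 7) * a) < 10 * (k + 1) * a := by nlinarith
    have h8 : 10 * (k + 1) ≤ k * (4 * k + 7) := by nlinarith
    have h9 := Nat.mul_le_mul_right a h8
    nlinarith

/-- the sizes of the levels add up to at most `n` -/
lemma sum_NN_le (D t m : ℕ) (hm : 1 ≤ m) (ht : 1 ≤ t) (htD : t * m ≤ D) :
    ∑ i : Fin (t * m), NN D t (i / m) ≤ nn D t := by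
  have hT1 : 1 ≤ t * m := Nat.mul_pos ht hm
  have h1 : ∀ i : Fin (t * m), (t * m) * NN D t (i / m) ≤ nn D t := by
    intro i
    have hdlt : i.val / m < t := by
      rw [Nat.div_lt_iff_lt_mul (by omega)]
      exact i.2
    rw [nn_eq D t (i / m) (by omega)]
    apply Nat.mul_le_mul_right
    calc t * m ≤ D := htD
      _ = D ^ 1 := (pow_one D).symm
      _ ≤ D ^ (13 ^ (i.val / m)) := Nat.pow_le_pow_right (by omega) (Nat.one_le_pow _ _ (by norm_num))
  have h2 : (t * m) * ∑ i : Fin (t * m), NN D t (i / m) ≤ (t * m) * nn D t := by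
    rw [mul_sum]
    calc ∑ i : Fin (t * m), (t * m) * NN D t (i / m) ≤ ∑ i : Fin (t * m), nn D t := sum_le_sum (fun i _ => h1 i)
      _ = (t * m) * nn D t := by rw [sum_const, card_univ, Fintype.card_fin, smul_eq_mul]
  exact Nat.le_of_mul_le_mul_left h2 (by omega)

end Pool.Agent.KS6_65.QR
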