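import Mathlib
import Pool.Agent.KS6_65.QR.Levels

set_option autoImplicit false

/-!
# Base graphs, disjoint copies, sparse graphs
-/

namespace Pool.Agent.KS6_65.QR

open Finset

/-- every subgraph with at least one vertex in which all degrees are larger than `k` has a vertex
of degree larger than `Δ` (degrees are counted inside the subgraph) -/
def Wild {V : Type*} (G : SimpleGraph V) (k Δ : ℕ) : Prop :=
  ∀ H : G.Subgraph, H.verts.Nonempty → (∀ v ∈ H.verts, k < (H.neighborSet v).ncard) →
    ∃ v ∈ H.verts, Δ < (H.neighborSet v).ncard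

theorem base (k m t Δ D : ℕ) (hk : 2 ≤ k) (hm : 1 ≤ m) (hmk : 2 * m ≤ k) (ht : 1 ≤ t)
    (hD64 : 64 * t ≤ D) (hD36 : 36 ^ m ≤ D) (hDΔ : 8 * Δ * (t * m) ≤ D) (htm : t * m ≤ D) :
    ∃ n₀ : ℕ, nn D t ≤ n₀ ∧ n₀ ≤ 2 * nn D t ∧ ∃ G : SimpleGraph (Fin n₀),
      nn D t * (t * m) ≤ G.edgeSet.ncard ∧ Wild G k Δ := by
  classical
  obtain ⟨f, hf⟩ := exists_good' D t m ht hm hD64 hD36
  have hD1 : 1 ≤ D := by omega
  have hn0 : 0 < nn D t := Nat.pow_pos (by omega)
  let e := Fintype.equivFin (Fin (nn D t) ⊕ (Σ i : Fin (t * m), Fin (NN D t (i / m))))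
  have hcard : Fintype.card (Fin (nn D t) ⊕ (Σ i : Fin (t * m), Fin (NN D t (i / m))))
      = nn D t + ∑ i : Fin (t * m), NN D t (i / m) := by
    rw [Fintype.card_sum, Fintype.card_fin, Fintype.card_sigma]
    congr 1
    exact sum_congr rfl (fun i _ => Fintype.card_fin _)
  have hle := sum_NN_le D t m hm ht htm
  refine ⟨Fintype.card (Fin (nn D t) ⊕ (Σ i : Fin (t * m), Fin (NN D t (i / m)))), by omega, by omega,
    (Gr (N := fun i => NN D t (i / m)) f).comap e.symm, ?_, ?_⟩
  · -- number of edges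
    have hinj : Function.Injective (fun p : Fin (nn D t) × Fin (t * m) => s(e (Sum.inl p.1), e (Sum.inr ⟨p.2, f p.2 p.1⟩))) := by
      rintro ⟨x, i⟩ ⟨y, j⟩ h
      simp only [Sym2.eq_iff, EmbeddingLike.apply_eq_iff_eq] at h
      rcases h with ⟨h1, h2⟩ | ⟨h1, h2⟩
      · rw [Sum.inl.injEq] at h1
        rw [Sum.inr.injEq, Sigma.mk.injEq] at h2
        rw [h1, h2.1]
      · simp at h1
    have hsub : (Set.range (fun p : Fin (nn D t) × Fin (t * m) => s(e (Sum.inl p.1), e (Sum.inr ⟨p.2, f p.2 p.1⟩))))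
        ⊆ ((Gr (N := fun i => NN D t (i / m)) f).comap e.symm).edgeSet := by
      rintro _ ⟨⟨x, i⟩, rfl⟩
      rw [SimpleGraph.mem_edgeSet, SimpleGraph.comap_adj]
      simp only [Equiv.symm_apply_apply]
      rw [Gr, SimpleGraph.fromRel_adj]
      exact ⟨by simp, Or.inl ⟨x, i, rfl, rfl⟩⟩
    have h1 := Set.ncard_le_ncard hsub (Set.toFinite _)
    rw [← Set.image_univ, Set.ncard_image_of_injective _ hinj, Set.ncard_univ, Nat.card_prod, Nat.card_fin, Nat.card_fin] at h1
    exact h1
  · intro H hHne hH3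
    by_contra hcon
    push Not at hcon
    have hncard : ∀ v, {w | H.Adj (e v) (e w)}.ncard = (H.neighborSet (e v)).ncard := by
      intro v
      have : H.neighborSet (e v) = e '' {w | H.Adj (e v) (e w)} := by
        ext w
        constructor
        · intro hw
          refine ⟨e.symm w, ?_, by simp⟩
          show H.Adj (e v) (e (e.symm w))
          rw [Equiv.apply_symm_apply]; exact hw
        · rintro ⟨u, hu, rfl⟩
          exact hu
      rw [this, Set.ncard_image_of_injective _ e.injective]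
    refine det_part' k m t Δ D hk hm hmk ht hD1 hDΔ f hf (fun u v => H.Adj (e u) (e v)) {v | e v ∈ H.verts}
      (fun u v h => h.symm) ?_ (fun u v h => H.edge_vert h) ?_ ?_ ?_
    · intro u v h
      have := H.adj_sub h
      rw [SimpleGraph.comap_adj] at this
      simpa using this
    · obtain ⟨w, hw⟩ := hHne
      exact ⟨e.symm w, by simpa using hw⟩
    · intro v hv
      have := hH3 (e v) hv
      rw [← hncard] at this
      exact this
    · intro v hv
      have := hcon (e v) hv
      rw [← hncard] at this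
      exact this

/-- disjoint copies of a graph, and some isolated vertices -/
theorem copies (n₀ e₀ k Δ : ℕ) (hn₀ : 1 ≤ n₀) (G₀ : SimpleGraph (Fin n₀))
    (he₀ : e₀ ≤ G₀.edgeSet.ncard) (hW : Wild G₀ k Δ) (n : ℕ) :
    ∃ G : SimpleGraph (Fin n), (n / n₀) * e₀ ≤ G.edgeSet.ncard ∧ Wild G k Δ := by
  classical
  let r : Fin n → Fin n₀ := fun u => ⟨u.val % n₀, Nat.mod_lt _ (by omega)⟩
  let G : SimpleGraph (Fin n) :=
    { Adj := fun u v => u.val / n₀ = v.val / n₀ ∧ u.val / n₀ < n / n₀ ∧ G₀.Adj (r u) (r v)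
      symm := ⟨fun u v h => ⟨h.1.symm, h.1 ▸ h.2.1, h.2.2.symm⟩⟩
      loopless := ⟨fun u h => G₀.loopless.irrefl _ h.2.2⟩ }
  have hlt : ∀ c, c < n / n₀ → ∀ u : Fin n₀, c * n₀ + u.val < n := by
    intro c hc u
    have h1 : (c + 1) * n₀ ≤ (n / n₀) * n₀ := Nat.mul_le_mul_right _ hc
    have h2 := Nat.div_mul_le_self n n₀
    have h3 := u.2
    have h4 : (c + 1) * n₀ = c * n₀ + n₀ := by ring
    omega
  let φ : (c : Fin (n / n₀)) → Fin n₀ → Fin n := fun c u => ⟨c.val * n₀ + u.val, hlt c.val c.2 u⟩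
  have hdiv : ∀ c u, (φ c u).val / n₀ = c.val := by
    intro c u
    show (c.val * n₀ + u.val) / n₀ = c.val
    rw [mul_comm, Nat.mul_add_div (by omega), Nat.div_eq_of_lt u.2, add_zero]
  have hmod : ∀ c u, r (φ c u) = u := by
    intro c u
    ext
    show (c.val * n₀ + u.val) % n₀ = u.val
    rw [mul_comm, Nat.mul_add_mod, Nat.mod_eq_of_lt u.2]
  have hφinj : ∀ c c' u u', φ c u = φ c' u' → c = c' ∧ u = u' := by
    intro c c' u u' h
    refine ⟨?_, ?_⟩
    · have h1 := hdiv c u
      rw [h, hdiv c' u'] at h1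
      exact (Fin.ext h1).symm
    · have h1 := hmod c u
      rw [h, hmod c' u'] at h1
      exact h1.symm
  have hback : ∀ (c : Fin (n / n₀)) (w : Fin n), w.val / n₀ = c.val → φ c (r w) = w := by
    intro c w h
    ext
    show c.val * n₀ + w.val % n₀ = w.val
    rw [← h]
    exact Nat.div_add_mod' _ _
  refine ⟨G, ?_, ?_⟩
  · have hinj : Function.Injective (fun p : Fin (n / n₀) × G₀.edgeSet => Sym2.map (φ p.1) p.2.1) := by
      rintro ⟨c, e, he⟩ ⟨c', e', he'⟩ h
      induction e using Sym2.ind with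
      | _ a b =>
        induction e' using Sym2.ind with
        | _ a' b' =>
          simp only [Sym2.map_mk, Sym2.eq_iff] at h
          rcases h with ⟨h1, h2⟩ | ⟨h1, h2⟩
          · obtain ⟨rfl, rfl⟩ := hφinj _ _ _ _ h1
            obtain ⟨_, rfl⟩ := hφinj _ _ _ _ h2
            rfl
          · obtain ⟨rfl, rfl⟩ := hφinj _ _ _ _ h1
            obtain ⟨_, rfl⟩ := hφinj _ _ _ _ h2
            simp only [Prod.mk.injEq, Subtype.mk.injEq, true_and]
            exact Sym2.eq_swap
    have hsub : Set.range (fun p : Fin (n / n₀) × G₀.edgeSet => Sym2.map (φ p.1) p.2.1) ⊆ G.edgeSet := by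
      rintro _ ⟨⟨c, e, he⟩, rfl⟩
      induction e using Sym2.ind with
      | _ a b =>
        simp only [Sym2.map_mk]
        rw [SimpleGraph.mem_edgeSet] at he ⊢
        refine ⟨?_, ?_, ?_⟩
        · rw [hdiv, hdiv]
        · rw [hdiv]; exact c.2
        · rw [hmod, hmod]; exact he
    have h1 := Set.ncard_le_ncard hsub (Set.toFinite _)
    rw [← Set.image_univ, Set.ncard_image_of_injective _ hinj, Set.ncard_univ, Nat.card_prod, Nat.card_fin,
      Nat.card_coe_set_eq] at h1
    exact (Nat.mul_le_mul_left _ he₀).trans h1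
  · intro H hHne hHk
    obtain ⟨v₀, hv₀⟩ := hHne
    have hne : (H.neighborSet v₀).Nonempty := by
      apply Set.nonempty_of_ncard_ne_zero
      have := hHk v₀ hv₀
      omega
    obtain ⟨w₀, hw₀⟩ := hne
    have hadj₀ : G.Adj v₀ w₀ := H.adj_sub hw₀
    have hc : v₀.val / n₀ < n / n₀ := hadj₀.2.1
    let c : Fin (n / n₀) := ⟨v₀.val / n₀, hc⟩
    let H₀ : G₀.Subgraph :=
      { verts := {u | φ c u ∈ H.verts}
        Adj := fun u v => H.Adj (φ c u) (φ c v)
        adj_sub := by
          intro u v h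
          have h1 : G.Adj (φ c u) (φ c v) := H.adj_sub h
          have h2 := h1.2.2
          rw [hmod, hmod] at h2
          exact h2
        edge_vert := by
          intro u v h
          exact H.edge_vert h
        symm := ⟨fun u v h => H.symm.symm _ _ h⟩ }
    have hnb : ∀ u, (H₀.neighborSet u).ncard = (H.neighborSet (φ c u)).ncard := by
      intro u
      have : H.neighborSet (φ c u) = φ c '' (H₀.neighborSet u) := by
        ext w
        constructor
        · intro hw
          have hadj : G.Adj (φ c u) w := H.adj_sub hw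
          have h1 : w.val / n₀ = c.val := by rw [← hadj.1]; exact hdiv c u
          refine ⟨r w, ?_, hback c w h1⟩
          show H.Adj (φ c u) (φ c (r w))
          rw [hback c w h1]
          exact hw
        · rintro ⟨x, hx, rfl⟩
          exact hx
      rw [this, Set.ncard_image_of_injective _ (fun a b h => (hφinj _ _ _ _ h).2)]
    obtain ⟨v, hv, hv2⟩ := hW H₀ ⟨r v₀, by
      show φ c (r v₀) ∈ H.verts
      rw [hback c v₀ rfl]
      exact hv₀⟩ (by
      intro v hv
      rw [hnb]
      exact hHk _ hv)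
    exact ⟨φ c v, hv, by rw [← hnb]; exact hv2⟩

/-- the graph in which the first `m` vertices are joined to all the others -/
theorem sparse (m k Δ n : ℕ) (hmk : m ≤ k) :
    ∃ G : SimpleGraph (Fin n), m * (n - m) ≤ G.edgeSet.ncard ∧ Wild G k Δ := by
  classical
  let G : SimpleGraph (Fin n) :=
    { Adj := fun u v => u ≠ v ∧ (u.val < m ∨ v.val < m)
      symm := ⟨fun u v h => ⟨h.1.symm, h.2.symm⟩⟩
      loopless := ⟨fun u h => h.1 rfl⟩ }
  rcases Nat.lt_or_ge n m with hnm | hnm
  · refine ⟨⊥, ?_, ?_⟩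
    · rw [Nat.sub_eq_zero_of_le hnm.le, mul_zero]; exact Nat.zero_le _
    · intro H hne hH
      obtain ⟨v, hv⟩ := hne
      have h1 := hH v hv
      have h2 : H.neighborSet v = ∅ := by
        ext w
        simp only [Set.mem_empty_iff_false, iff_false]
        intro hw
        exact (H.adj_sub hw : (⊥ : SimpleGraph (Fin n)).Adj v w)
      rw [h2, Set.ncard_empty] at h1
      omega
  refine ⟨G, ?_, ?_⟩
  · have hinj : Function.Injective (fun p : Fin m × Fin (n - m) =>
        s((⟨p.1.val, by omega⟩ : Fin n), (⟨m + p.2.val, by omega⟩ : Fin n))) := by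
      rintro ⟨a, b⟩ ⟨a', b'⟩ h
      simp only [Sym2.eq_iff, Fin.mk.injEq] at h
      rcases h with ⟨h1, h2⟩ | ⟨h1, h2⟩
      · rw [Prod.mk.injEq]
        exact ⟨Fin.ext h1, Fin.ext (by omega)⟩
      · exfalso; omega
    have hsub : Set.range (fun p : Fin m × Fin (n - m) =>
        s((⟨p.1.val, by omega⟩ : Fin n), (⟨m + p.2.val, by omega⟩ : Fin n))) ⊆ G.edgeSet := by
      rintro _ ⟨⟨a, b⟩, rfl⟩
      rw [SimpleGraph.mem_edgeSet]
      refine ⟨?_, Or.inl ?_⟩
      · intro h
        rw [Fin.mk.injEq] at h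
        have := a.2
        omega
      · exact a.2
    have h1 := Set.ncard_le_ncard hsub (Set.toFinite _)
    rw [← Set.image_univ, Set.ncard_image_of_injective _ hinj, Set.ncard_univ, Nat.card_prod, Nat.card_fin,
      Nat.card_fin] at h1
    exact h1
  · intro H hne hH
    exfalso
    have hsmall : ∀ (S : Set (Fin n)), (∀ w ∈ S, w.val < m) → S.ncard ≤ m := by
      intro S hS
      have h1 : (Fin.val '' S).ncard ≤ (Finset.range m : Set ℕ).ncard := by
        apply Set.ncard_le_ncard _ (Finset.finite_toSet _)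
        rintro _ ⟨w, hw, rfl⟩
        rw [mem_coe, mem_range]
        exact hS w hw
      rw [Set.ncard_image_of_injective _ Fin.val_injective, Set.ncard_coe_finset, card_range] at h1
      exact h1
    have hall : ∀ v ∈ H.verts, v.val < m := by
      intro v hv
      by_contra hvm
      have h1 := hH v hv
      have h2 := hsmall (H.neighborSet v) (by
        intro w hw
        have h3 : G.Adj v w := H.adj_sub hw
        rcases h3.2 with h | h
        · exact absurd h hvm
        · exact h)
      omega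
    obtain ⟨v, hv⟩ := hne
    have h1 := hH v hv
    have h2 := hsmall (H.neighborSet v) (by
      intro w hw
      exact hall w (H.edge_vert (H.symm.symm _ _ hw)))
    omega

end Pool.Agent.KS6_65.QR
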