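import Mathlib
import Pool.Agent.KS6_65.QR.Base

set_option autoImplicit false

/-!
# The uniform bound
-/

namespace Pool.Agent.KS6_65.QR

open Finset

lemma log13pow : Real.log ((13:ℝ) ^ 4) ≤ 11 := by
  rw [Real.log_le_iff_le_exp (by norm_num)]
  have h1 : Real.exp 11 = (Real.exp 1) ^ 11 := by
    rw [← Real.exp_nat_mul]; norm_num
  rw [h1]
  have h2 : (2.7:ℝ) ≤ Real.exp 1 := by
    have := Real.exp_one_gt_d9
    linarith
  calc (13:ℝ) ^ 4 ≤ 2.7 ^ 11 := by norm_num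
    _ ≤ _ := pow_le_pow_left₀ (by norm_num) h2 11

lemma one_le_log13 : 1 ≤ Real.log 13 := by
  rw [Real.le_log_iff_exp_le (by norm_num)]
  have := Real.exp_one_lt_d9
  linarith

lemma log36 : Real.log 36 ≤ 4 := by
  rw [Real.log_le_iff_le_exp (by norm_num)]
  have h1 : Real.exp 4 = (Real.exp 1) ^ 4 := by
    rw [← Real.exp_nat_mul]; norm_num
  rw [h1]
  have h2 : (2.7:ℝ) ≤ Real.exp 1 := by
    have := Real.exp_one_gt_d9
    linarith
  calc (36:ℝ) ≤ 2.7 ^ 4 := by norm_num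
    _ ≤ _ := pow_le_pow_left₀ (by norm_num) h2 4

lemma log64 : Real.log 64 ≤ 4.16 := by
  have : (64:ℝ) = 2 ^ 6 := by norm_num
  rw [this, Real.log_pow]
  have := Real.log_two_lt_d9
  push_cast
  linarith

/-- the size of `D` -/
lemma logD (k m t Δ : ℕ) (hk : 2 ≤ k) (hm : 1 ≤ m) (hmk : 2 * m ≤ k) (ht : 1 ≤ t) (hΔ : 1 ≤ Δ) :
    Real.log ((64 * (Δ + 1) * (t * m) * 36 ^ m : ℕ) : ℝ) ≤ t + 4 * (k + Real.log Δ) := by
  have hk' : (2:ℝ) ≤ k := by exact_mod_cast hk
  have hm' : (1:ℝ) ≤ m := by exact_mod_cast hm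
  have hmk' : 2 * (m:ℝ) ≤ k := by exact_mod_cast hmk
  have ht' : (1:ℝ) ≤ t := by exact_mod_cast ht
  have hΔ' : (1:ℝ) ≤ Δ := by exact_mod_cast hΔ
  have h0 : 0 ≤ Real.log Δ := Real.log_nonneg hΔ'
  push_cast
  rw [Real.log_mul (by positivity) (by positivity), Real.log_mul (by positivity) (by positivity),
    Real.log_mul (by positivity) (by positivity), Real.log_mul (by positivity) (by positivity), Real.log_pow]
  have h1 : Real.log ((Δ:ℝ) + 1) ≤ Real.log 2 + Real.log Δ := by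
    rw [← Real.log_mul (by norm_num) (by positivity)]
    exact Real.log_le_log (by positivity) (by linarith)
  have h2 := Real.log_le_sub_one_of_pos (show (0:ℝ) < t by linarith)
  have h3 := Real.log_le_sub_one_of_pos (show (0:ℝ) < m by linarith)
  have h4 : (m:ℝ) * Real.log 36 ≤ m * 4 := mul_le_mul_of_nonneg_left log36 (by linarith)
  have h5 := log64
  have h6 := Real.log_two_lt_d9
  nlinarith

theorem uniform (n k Δ : ℕ) (hk : 2 ≤ k) (hΔ : 1 ≤ Δ) :
    ∃ G : SimpleGraph (Fin n),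
      (1/150 : ℝ) * k * n * Real.log (Real.log n / (k + Real.log Δ)) ≤ (G.edgeSet.ncard : ℝ) ∧
        Wild G k Δ := by
  have hk' : (2:ℝ) ≤ k := by exact_mod_cast hk
  have hΔ' : (1:ℝ) ≤ Δ := by exact_mod_cast hΔ
  have hlΔ : 0 ≤ Real.log Δ := Real.log_nonneg hΔ'
  set Q : ℝ := k + Real.log Δ with hQdef
  have hQ2 : 2 ≤ Q := by rw [hQdef]; linarith
  have hkQ : (k:ℝ) ≤ Q := by rw [hQdef]; linarith
  set L : ℝ := Real.log n with hLdef
  have hL0 : 0 ≤ L := Real.log_natCast_nonneg n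
  set R : ℝ := L / Q with hRdef
  have hR0 : 0 ≤ R := by rw [hRdef]; positivity
  have hLR : L = R * Q := by rw [hRdef]; field_simp
  have hn0' : (0:ℝ) ≤ n := by positivity
  rcases le_or_gt R 1 with hR1 | hR1
  · obtain ⟨G, _, hG⟩ := sparse 0 k Δ n (by omega)
    refine ⟨G, ?_, hG⟩
    have h1 : Real.log R ≤ 0 := Real.log_nonpos hR0 hR1
    have h2 : (1/150 : ℝ) * k * n * Real.log R ≤ 0 := mul_nonpos_of_nonneg_of_nonpos (by positivity) h1
    have h3 : (0:ℝ) ≤ (G.edgeSet.ncard : ℝ) := by positivity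
    linarith
  have hLQ : Q < L := by rw [hLR]; nlinarith
  have hnpos : (0:ℝ) < n := by
    rcases hn0'.lt_or_eq with h | h
    · exact h
    · exfalso
      rw [hLdef, ← h, Real.log_zero] at hLQ
      linarith
  have hkn : (k:ℝ) < n := by
    have h1 : L ≤ n - 1 := Real.log_le_sub_one_of_pos hnpos
    linarith
  obtain ⟨m, hm⟩ : ∃ m, m = k / 2 := ⟨_, rfl⟩
  have hm1 : 1 ≤ m := by omega
  have hmk : 2 * m ≤ k := by omega
  have h3m : k ≤ 3 * m := by omega
  have h3m' : (k:ℝ) ≤ 3 * m := by exact_mod_cast h3m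
  have hlogR : 0 < Real.log R := Real.log_pos hR1
  rcases le_or_gt R (13 ^ 4) with hR2 | hR2
  · obtain ⟨G, hG1, hG⟩ := sparse m k Δ n (by omega)
    refine ⟨G, ?_, hG⟩
    have h1 : Real.log R ≤ 11 := (Real.log_le_log (by linarith) hR2).trans log13pow
    have hkn' : k < n := by exact_mod_cast hkn
    have h2 : n ≤ 2 * (n - m) := by omega
    have h2' : (n:ℝ) ≤ 2 * ((n - m : ℕ) : ℝ) := by exact_mod_cast h2
    have h3 : ((m * (n - m) : ℕ) : ℝ) ≤ (G.edgeSet.ncard : ℝ) := by exact_mod_cast hG1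
    rw [Nat.cast_mul] at h3
    have h4 : (k:ℝ) * n ≤ (3 * m) * (2 * ((n - m : ℕ) : ℝ)) := by gcongr
    have h5 : (1/150 : ℝ) * k * n * Real.log R ≤ (1/150 : ℝ) * k * n * 11 := by gcongr
    have h6 : (0:ℝ) ≤ k * n := by positivity
    nlinarith
  -- the main case
  have hl13 := one_le_log13
  set ℓ : ℝ := Real.log 13 with hℓ
  have h4ℓ : 4 * ℓ ≤ 11 := by
    have := log13pow
    rw [Real.log_pow] at this
    push_cast at this
    exact this
  have hRℓ : 4 * ℓ ≤ Real.log R := by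
    have h1 := Real.log_le_log (by norm_num) hR2.le
    rw [Real.log_pow] at h1
    push_cast at h1
    exact h1
  obtain ⟨t, ht⟩ : ∃ t, t = ⌊Real.log R / (2 * ℓ)⌋₊ := ⟨_, rfl⟩
  have hy2 : 2 ≤ Real.log R / (2 * ℓ) := by
    rw [le_div_iff₀ (by linarith)]; linarith
  have htle : (t:ℝ) ≤ Real.log R / (2 * ℓ) := by
    rw [ht]; exact Nat.floor_le (by linarith)
  have htge : Real.log R / (2 * ℓ) - 1 < t := by
    rw [ht]; exact Nat.sub_one_lt_floor _
  have ht1 : 1 ≤ t := by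
    have h1 : (1:ℝ) < t + 0.5 := by linarith
    by_contra h
    have h2 : t = 0 := by omega
    rw [h2] at h1
    norm_num at h1
  have ht1' : (1:ℝ) ≤ t := by exact_mod_cast ht1
  have ht11 : Real.log R ≤ 11 * t := by
    have h1 : Real.log R / (2 * ℓ) ≤ 2 * t := by linarith
    rw [div_le_iff₀ (by linarith)] at h1
    nlinarith
  -- `13 ^ t ≤ √ R`
  set x : ℝ := Real.sqrt R with hx
  have hxx : x * x = R := Real.mul_self_sqrt hR0
  have hx169 : 169 ≤ x := by
    rw [hx]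
    apply Real.le_sqrt_of_sq_le
    norm_num at hR2 ⊢
    linarith
  have h13 : (13:ℝ) ^ t ≤ x := by
    rw [hx]
    apply Real.le_sqrt_of_sq_le
    rw [← pow_mul]
    rw [← Real.log_le_log_iff (by positivity) (by linarith), Real.log_pow]
    rw [le_div_iff₀ (by linarith)] at htle
    push_cast
    linarith
  have htx : (t:ℝ) ≤ x := by
    have h1 : (t:ℝ) ≤ (13:ℝ) ^ t := by
      have : t ≤ 13 ^ t := (Nat.lt_pow_self (by norm_num)).le
      exact_mod_cast this
    linarith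
  obtain ⟨D, hD⟩ : ∃ D, D = 64 * (Δ + 1) * (t * m) * 36 ^ m := ⟨_, rfl⟩
  have hlD := logD k m t Δ hk hm1 hmk ht1 hΔ
  rw [← hD, ← hQdef] at hlD
  have htm1 : 1 ≤ t * m := Nat.mul_pos ht1 hm1
  have h36 : 1 ≤ 36 ^ m := Nat.one_le_pow _ _ (by norm_num)
  have hb1 : 64 * (t * m) ≤ D := by
    rw [hD]
    calc 64 * (t * m) = 64 * 1 * (t * m) * 1 := by ring
      _ ≤ 64 * (Δ + 1) * (t * m) * 36 ^ m := by gcongr; omega
  have hb2 : 64 * t ≤ D := by
    calc 64 * t = 64 * (t * 1) := by ring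
      _ ≤ 64 * (t * m) := by gcongr
      _ ≤ D := hb1
  have hb3 : 36 ^ m ≤ D := by
    rw [hD]
    calc 36 ^ m = 1 * 1 * 1 * 36 ^ m := by ring
      _ ≤ 64 * (Δ + 1) * (t * m) * 36 ^ m := by gcongr <;> omega
  have hb4 : 8 * Δ * (t * m) ≤ D := by
    rw [hD]
    calc 8 * Δ * (t * m) = 8 * Δ * (t * m) * 1 := by ring
      _ ≤ 64 * (Δ + 1) * (t * m) * 36 ^ m := by gcongr <;> omega
  have hb5 : t * m ≤ D := by omega
  have hD1 : 1 ≤ D := by omega
  have hD1' : (1:ℝ) ≤ D := by exact_mod_cast hD1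
  have hlD0 : 0 ≤ Real.log D := Real.log_nonneg hD1'
  -- the number of vertices
  have hsize : 2 * nn D t ≤ n := by
    have h1 : Real.log (2 * (D:ℝ) ^ (13 ^ t)) ≤ L := by
      rw [Real.log_mul (by norm_num) (by positivity), Real.log_pow]
      push_cast
      have h2 : (13:ℝ) ^ t * Real.log D ≤ x * (x + 4 * Q) := by
        apply mul_le_mul h13 _ hlD0 (by linarith)
        linarith
      have h3 := Real.log_two_lt_d9
      have h4 : x * Q * 169 ≤ R * Q := by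
        have h40 : 0 ≤ (x * Q) * (x - 169) := mul_nonneg (mul_nonneg (by linarith) (by linarith)) (by linarith)
        have h41 : (x * Q) * (x - 169) = (x * x) * Q - x * Q * 169 := by ring
        rw [h41, hxx] at h40
        linarith
      have h5 : R * 2 ≤ R * Q := by gcongr
      have h6 : (13:ℝ) ^ 4 ≤ R := hR2.le
      norm_num at h6
      rw [hLR]
      nlinarith
    have h2 : (2:ℝ) * (D:ℝ) ^ (13 ^ t) ≤ n := by
      rw [hLdef] at h1
      exact (Real.log_le_log_iff (by positivity) hnpos).mp h1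
    unfold nn
    exact_mod_cast h2
  obtain ⟨n₀, hn1, hn2, G₀, hG₀, hW₀⟩ := base k m t Δ D hk hm1 hmk ht1 hb2 hb3 hb4 hb5
  have hnn1 : 1 ≤ nn D t := Nat.pow_pos (by omega)
  obtain ⟨G, hG, hW⟩ := copies n₀ (nn D t * (t * m)) k Δ (by omega) G₀ hG₀ hW₀ n
  refine ⟨G, ?_, hW⟩
  have hq1 : 1 ≤ n / n₀ := by
    rw [Nat.one_le_div_iff (by omega)]
    omega
  have hq2 : n ≤ 2 * ((n / n₀) * n₀) := by
    have h1 := Nat.lt_div_mul_add (a := n) (b := n₀) (by omega)
    have h2 : 1 * n₀ ≤ (n / n₀) * n₀ := Nat.mul_le_mul_right _ hq1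
    omega
  have hfin : n * (t * m) ≤ 4 * G.edgeSet.ncard := by
    calc n * (t * m) ≤ (2 * ((n / n₀) * n₀)) * (t * m) := Nat.mul_le_mul_right _ hq2
      _ ≤ (2 * ((n / n₀) * (2 * nn D t))) * (t * m) := by gcongr
      _ = 4 * ((n / n₀) * (nn D t * (t * m))) := by ring
      _ ≤ 4 * G.edgeSet.ncard := Nat.mul_le_mul_left _ hG
  have hfin' : (n:ℝ) * (t * m) ≤ 4 * (G.edgeSet.ncard : ℝ) := by exact_mod_cast hfin
  have h7 : (k:ℝ) * Real.log R ≤ (3 * m) * (11 * t) := by gcongr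
  have h8 : (n:ℝ) * (k * Real.log R) ≤ n * ((3 * m) * (11 * t)) := by gcongr
  have h9 : 0 ≤ (n:ℝ) * (k * Real.log R) := by positivity
  nlinarith

end Pool.Agent.KS6_65.QR
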